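import Mathlib
import Pool.Agent.Y757.EM.Fin

/-!
# Exponential moments of the argument of zeta; the Lindelöf hypothesis as an asymptotic formula

Let `J(t) = ∫_{1/2}^∞ log |ζ(σ + it)| dσ`.  By a classical formula of Littlewood (not used or proved here)
`J(t) = π S₁(t) + const` for `t > 0`, where `S₁(t) = ∫_0^t S(u) du` and `S(u) = (1/π) arg ζ(1/2 + iu)`, so `J` is
determined by the ordinates of the zeros alone.  For a prime `p` let
`X_p(θ) = ∑_{m ≥ 1} cos (2π m θ) / (m² p^{m/2} log p)`, let `E_p(λ) = ∫_0^1 exp (λ X_p(θ)) dθ` and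
`C(λ) = ∏_p E_p(λ)`: the exponential moment of the random model `∑_p X_p(θ_p)`, `θ_p` independent and uniform.

* (unconditional formula) `(1/T) ∫_1^T exp (λ J(t)) dt → C(λ)` for all complex `λ` with `0 ≤ Re λ < 16`.
* (moments of zeta) If `∫_1^T |ζ(1/2 + it)|^{2k} dt ≤ A_ε T^{1+ε}` for every `ε > 0`, then the formula holds
  for `0 ≤ Re λ < 8k`.
* (dichotomy) If `∫_1^T exp (c J(t)) dt ≤ A T` for some `c`, `A` and all `T ≥ 1`, then the formula holds for all
  `λ` with `0 ≤ Re λ < c`.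
* (pointwise bounds) If `∫_1^T exp (c J(t)) dt ≤ A T` for all `T ≥ 1`, then `J(t) ≤ (1/c + ε) log t` for large
  `t`, and `ζ(1/2 + it) = O(t^{κ + ε})` for every `κ` in `[1/8, 1/4]` with `κ² > 1/c`, and for every `κ` in
  `(0, 1/8]` with `(64/27) κ³ / (1 - 16κ/3) > 1/c`.
* (criterion) The Lindelöf hypothesis holds if and only if the formula holds for all `λ` with `Re λ ≥ 0`, and if
  and only if for every `c > 0` there is `A` with `∫_1^T exp (c J(t)) dt ≤ A T` for all `T ≥ 1`.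

Proof.  (i) The method of Hardy, Littlewood and Carlson turns the moment hypothesis into `T^{1+ε}` bounds of moments of
`ζ - ∑_{n ≤ N} n^{-s}` on the lines `σ > 1/2` with a gain, hence into `O(T)` bounds of `∫ |ζ(σ + it)|^{q(σ)} dt`
for all `q(σ) < 2k / (2 (1 - σ))`; Jensen's inequality over `σ`, with the weights `1 / q(σ)` whose integral is
`1/(8k)`, gives `∫_1^T exp (c J) = O(T)` for `c < 8k`.  For `k = 2` the hypothesis is a theorem.
(ii) `J` is close in mean to the finite sums over `p ≤ N` (mean values of `log |ζ ∏_{p ≤ N} (1 - p^{-s})|`, the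
mean of its negative part being controlled by the nonnegativity of the mean of the integral of its logarithm), and
for finite sums the formula is the equidistribution of `(t log p)_{p ≤ N}`; uniform integrability from (i) allows
the passage to the limit.  (iii) Subharmonicity of `log |ζ|` and the functional equation bound
`J(t)` by a kernel average of `J` over points near `t`, with a loss of `h² log t`, `h` small; Jensen's inequality
turns the mean value `O(T)` of `exp (c J)` into `exp (c J(t)) = O(t^{1 + ε})`.  The bounds of `ζ` follow by the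
one-sided criterion of `LargeValuesForceS1`.
-/

set_option autoImplicit false

namespace Pool.Agent.Results.MP_4e5e8a_nt.ExponentialMoments

open MeasureTheory Filter Topology

/-- `|ζ(1/2 + it)|` -/
noncomputable def Z (t : ℝ) : ℝ := ‖riemannZeta (1 / 2 + t * Complex.I)‖

/-- `J t = ∫_{1/2}^∞ log |ζ(σ + it)| dσ` -/
noncomputable def J (t : ℝ) : ℝ := ∫ σ in Set.Ioi (1/2 : ℝ), Real.log ‖riemannZeta (σ + t * Complex.I)‖

/-- `X p θ = ∑_{m ≥ 1} cos (2π m θ) / (m² p^{m/2} log p)` -/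
noncomputable def X (p : ℕ) (θ : ℝ) : ℝ :=
  ∑' m : ℕ, Real.cos (2 * Real.pi * (m + 1) * θ) /
    (((m : ℝ) + 1) ^ 2 * (p : ℝ) ^ (((m : ℝ) + 1) / 2) * Real.log p)

/-- the local factor `E_p(λ) = ∫_0^1 exp (λ X_p(θ)) dθ` -/
noncomputable def E (l : ℂ) (p : ℕ) : ℂ := ∫ θ in (0:ℝ)..1, Complex.exp (l * X p θ)

/-- `C(λ) = ∏_p E_p(λ)` -/
noncomputable def C (l : ℂ) : ℂ := ∏' p : Nat.Primes, E l p

/-- the asymptotic formula `(1/T) ∫_1^T exp (λ J(t)) dt → C(λ)` -/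
def Formula (l : ℂ) : Prop :=
  Tendsto (fun T : ℝ => ((1 / T : ℝ) : ℂ) * ∫ t in (1:ℝ)..T, Complex.exp (l * J t)) atTop (𝓝 (C l))

/-- `∫_1^T exp (c J(t)) dt = O(T)` -/
def Bounded (c : ℝ) : Prop :=
  ∃ A : ℝ, ∀ T : ℝ, 1 ≤ T → ∫ t in (1:ℝ)..T, Real.exp (c * J t) ≤ A * T

/-- `∫_1^T |ζ(1/2 + it)|^{2k} dt = O(T^{1 + ε})` for every `ε > 0` -/
def Moment (k : ℕ) : Prop :=
  ∀ ε : ℝ, 0 < ε → ∃ A : ℝ, ∀ T : ℝ, 1 ≤ T → ∫ t in (1:ℝ)..T, Z t ^ (2 * k) ≤ A * T ^ (1 + ε)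

/-- `|ζ(1/2 + it)| = O((1 + |t|)^(κ + ε))` for every `ε > 0`; for `κ = 0` this is the Lindelöf
hypothesis. -/
def Exponent (κ : ℝ) : Prop := ∀ ε : ℝ, 0 < ε → ∃ C : ℝ, ∀ t : ℝ, Z t ≤ C * (1 + |t|) ^ (κ + ε)

lemma J_eq (t : ℝ) : J t = Y757.EM.JJ t := (Y757.EM.JJ_eq t).symm

lemma E_eq (l : ℂ) (p : Nat.Primes) : E l p = Y757.EM.fac p l := by
  unfold E Y757.EM.fac X
  refine intervalIntegral.integral_congr fun θ _ => ?_
  rw [Y757.EM.Lp_eq p.2.two_le θ]

lemma C_eq (l : ℂ) : C l = Y757.EM.CC l := by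
  unfold C Y757.EM.CC
  exact tprod_congr fun p => E_eq l p

lemma formula_iff (l : ℂ) : Formula l ↔ Tendsto (fun T : ℝ => Y757.EM.av T
    (fun t => Complex.exp (l * (Y757.EM.JJ t : ℂ)))) atTop (𝓝 (Y757.EM.CC l)) := by
  unfold Formula Y757.EM.av
  simp only [J_eq, C_eq]

lemma bounded_iff (c : ℝ) : Bounded c ↔ Y757.EM.Bdd c := by
  unfold Bounded Y757.EM.Bdd
  simp only [J_eq]

lemma moment_hyp {k : ℕ} (h : Moment k) : Y757.EM.HypK k := Y757.EM.hyp_of_moment h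

theorem result :
    -- the integrals and the product are well defined
    (∀ t : ℝ, 1 ≤ t → IntegrableOn (fun σ : ℝ => Real.log ‖riemannZeta (σ + t * Complex.I)‖)
      (Set.Ioi (1/2))) ∧
    (∀ l : ℂ, 0 ≤ l.re → ∀ T : ℝ, 1 ≤ T →
      IntervalIntegrable (fun t => Complex.exp (l * J t)) volume 1 T) ∧
    (∀ l : ℂ, Multipliable fun p : Nat.Primes => E l p) ∧
    -- the unconditional formula
    (∀ l : ℂ, 0 ≤ l.re → l.re < 16 → Formula l) ∧
    -- the formula from moments of zeta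
    (∀ k : ℕ, 1 ≤ k → Moment k → ∀ l : ℂ, 0 ≤ l.re → l.re < 8 * k → Formula l) ∧
    -- the formula from the boundedness of a moment
    (∀ c : ℝ, Bounded c → ∀ l : ℂ, 0 ≤ l.re → l.re < c → Formula l) ∧
    -- pointwise bounds from a single moment
    (∀ c : ℝ, 0 < c → Bounded c → ∀ ε : ℝ, 0 < ε → ∃ T₀ : ℝ, ∀ t : ℝ, T₀ ≤ t →
      J t ≤ (1 / c + ε) * Real.log t) ∧
    (∀ κ c : ℝ, 1/8 ≤ κ → κ ≤ 1/4 → 0 < c → 1 / c < κ ^ 2 → Bounded c → Exponent κ) ∧
    (∀ κ c : ℝ, 0 < κ → κ ≤ 1/8 → 0 < c → 1 / c < 64 / 27 * κ ^ 3 / (1 - 16 / 3 * κ) →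
      Bounded c → Exponent κ) ∧
    -- the Lindelöf hypothesis
    (Exponent 0 ↔ ∀ l : ℂ, 0 ≤ l.re → Formula l) ∧
    (Exponent 0 ↔ ∀ c : ℝ, 0 < c → Bounded c) := by
  have hB : ∀ c : ℝ, Bounded c → ∃ A : ℝ, ∀ T : ℝ, 1 ≤ T →
      ∫ t in (1:ℝ)..T, Real.exp (c * Y757.EM.JJ t) ≤ A * T := fun c h => (bounded_iff c).1 h
  have hLH : ∀ (h : Exponent 0) (c : ℝ), 0 < c → Bounded c := by
    intro h c hc
    obtain ⟨k, hk⟩ := exists_nat_gt c
    have hk1 : 1 ≤ k := by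
      rcases Nat.eq_zero_or_pos k with h0 | h0
      · subst h0
        rw [Nat.cast_zero] at hk
        linarith
      · exact h0
    exact (bounded_iff c).2 (Y757.EM.bdd_of_hyp hk1 (Y757.EM.hyp_of_LH h hk1) hc (by linarith))
  have hform : ∀ c : ℝ, Bounded c → ∀ l : ℂ, 0 ≤ l.re → l.re < c → Formula l := fun c h l h0 h1 =>
    (formula_iff l).2 (Y757.EM.formula_of_bdd ((bounded_iff c).1 h) h0 h1)
  refine ⟨fun t ht => Y757.EM.JJ_integrable ht, ?_, ?_, ?_, ?_, hform, ?_, ?_, ?_, ⟨?_, ?_⟩, ⟨hLH, ?_⟩⟩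
  · intro l hl T hT
    simp only [J_eq]
    exact Y757.EM.cexpJ_ii hl hT
  · intro l
    have h := Y757.EM.fac_mult l
    simp only [← E_eq] at h
    exact h
  · intro l h0 h1
    exact (formula_iff l).2 (Y757.EM.main (k := 2) (by norm_num) Y757.EM.hyp2 h0 (by norm_num; linarith))
  · intro k hk hm l h0 h1
    exact (formula_iff l).2 (Y757.EM.main hk (moment_hyp hm) h0 h1)
  · intro c hc hb ε hε
    obtain ⟨A, hA⟩ := hB c hb
    simp only [J_eq]
    exact Y757.EM.pointwise_JJ hc hA hε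
  · intro κ c h1 h2 hc h3 hb
    obtain ⟨A, hA⟩ := hB c hb
    exact Y757.EM.exponent_of_bdd (by linarith) hc (Y757.LS.law_sq h1 h2 h3) hA
  · intro κ c h1 h2 hc h3 hb
    obtain ⟨A, hA⟩ := hB c hb
    exact Y757.EM.exponent_of_bdd h1.le hc (Y757.LS.law_cube h1 h2 h3) hA
  · intro h l hl
    exact hform (l.re + 1) (hLH h _ (by linarith)) l hl (by linarith)
  · intro h
    refine Y757.EM.lh_of_all fun c hc => ?_
    exact Y757.EM.bdd_of_formula ((formula_iff (c : ℂ)).1 (h (c : ℂ) (by rw [Complex.ofReal_re]; exact hc.le)))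
  · intro h
    refine Y757.EM.lh_of_all fun c hc => ?_
    obtain ⟨A, hA⟩ := hB c (h c hc)
    exact ⟨A, 1, hA⟩

end Pool.Agent.Results.MP_4e5e8a_nt.ExponentialMoments
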