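import Mathlib
import Pool.Agent.Y757.LS.Crit

/-!
# Large values of zeta force large values of `S₁`; a one-sided criterion for the Lindelöf hypothesis

Write `Z t = |ζ(1/2 + it)|` and `J t = ∫_{1/2}^2 log |ζ(σ + it)| dσ`.  By a classical formula of Littlewood
(not used or proved here) `J t = π S₁(t) + O(1)`, where `S₁(t) = ∫_0^t S(u) du` and `S(u)` is the remainder term
of the counting function of the zeros; thus `J` depends, up to `O(1)`, only on the ordinates of the zeros.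

* (uniform law) There is `C` such that for all large `T` with `(log Z T)^3 ≥ C (log T)^2` there is `t` with
  `(t - T)^2 ≤ C (log T / log Z T)^3` and `J t ≥ (log Z T)^3 / (64 (log T)^2)`.
* (powers) Let `κ`, `a` be such that `a < x (κ - x/4)` for some `1/4 < x ≤ 1/2`, or `a < δ² (κ - δ/4) / (1 - 2δ)`
  for some `0 < δ ≤ 1/3` (we write `Law κ a`; it contains all `a < κ²` if `1/8 ≤ κ ≤ 1/4`, and all
  `a < (64/27) κ³ / (1 - 16κ/3)` if `0 < κ ≤ 1/8`).  Then `Z T ≥ T^κ`, `T` large, implies `J t ≥ a log T` for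
  some `t` at bounded distance from `T`.
* (comparison) For every `ε > 0` there is, at bounded distance from every large `T`, some `t` with
  `J t ≥ - ε log T`; and `ζ(1/2 + it) = O(t^(κ + ε))` for all `ε > 0` implies `J t ≤ (κ/4 + ε) log t` for large `t`.
* (one-sided criterion) If `Law κ a` and `J t ≤ a log t` for all large `t`, then `ζ(1/2 + it) = O(t^(κ + ε))`.
  The Lindelöf hypothesis is equivalent to `limsup J t / log t ≤ 0`: upper bounds of `S₁` alone decide it.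

Proof.  `log |ζ|` is subharmonic; the harmonic measure of a strip, from its centre, has the density
`1 / (2h cosh(π y / 2h))`.  For windows `A_δ(t) = (1/2δ) ∫_{-δ}^{δ} log |ζ(1/2 + s + it)| ds` the mean value
inequality for strips of half-width `δ`, integrated over `s`, gives `A_δ ≤ E_δ A_{2δ}` (`E_δ` the average in `t`).
Iterating, `log Z T` is bounded by averages of `A_δ`, and the functional equation bounds `A_δ` by
`(1/δ) ∫_0^δ log |ζ| ds + (δ/4) log t`.  The last integral is `J` minus the integral over `s ≥ δ`, whose averages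
over strips of half-width `> 1/2 - δ` are bounded below.  For `x > 1/4` one adds the windows about `±2x`, which
lie outside the critical strip, to that about `0`: together they cover `[-3x, 3x]`.
-/

set_option autoImplicit false

namespace Pool.Agent.Results.MP_4e5e8a_nt.LargeValuesForceS1

open Real (log)

/-- `|ζ(1/2 + it)|` -/
noncomputable def Z (t : ℝ) : ℝ := ‖riemannZeta (1 / 2 + t * Complex.I)‖

/-- `J t = ∫_{1/2}^2 log |ζ(σ + it)| dσ` -/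
noncomputable def J (t : ℝ) : ℝ := ∫ σ in (1/2 : ℝ)..2, log ‖riemannZeta (σ + t * Complex.I)‖

/-- `|ζ(1/2 + it)| = O((1 + |t|)^(κ + ε))` for every `ε > 0`; for `κ = 0` this is the Lindelöf
hypothesis. -/
def Exponent (κ : ℝ) : Prop := ∀ ε : ℝ, 0 < ε → ∃ C : ℝ, ∀ t : ℝ, Z t ≤ C * (1 + |t|) ^ (κ + ε)

/-- the pairs `(κ, a)` of the law for powers -/
def Law (κ a : ℝ) : Prop :=
  (∃ x : ℝ, 1/4 < x ∧ x ≤ 1/2 ∧ a < x * (κ - x / 4)) ∨
  (∃ δ : ℝ, 0 < δ ∧ δ ≤ 1/3 ∧ a < δ ^ 2 * (κ - δ / 4) / (1 - 2 * δ))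

theorem result :
    -- the uniform law
    (∃ C T₀ : ℝ, 0 < C ∧ ∀ T : ℝ, T₀ ≤ T → C * log T ^ 2 ≤ log (Z T) ^ 3 →
      ∃ t : ℝ, (t - T) ^ 2 ≤ C * (log T / log (Z T)) ^ 3 ∧
        log (Z T) ^ 3 / (64 * log T ^ 2) ≤ J t) ∧
    -- the law for powers
    (∀ κ a : ℝ, Law κ a → ∃ B T₀ : ℝ, ∀ T : ℝ, T₀ ≤ T → T ^ κ ≤ Z T →
      ∃ t : ℝ, |t - T| ≤ B ∧ a * log T ≤ J t) ∧
    (∀ κ a : ℝ, 1/8 ≤ κ → κ ≤ 1/4 → a < κ ^ 2 → Law κ a) ∧
    (∀ κ a : ℝ, 0 < κ → κ ≤ 1/8 → a < 64 / 27 * κ ^ 3 / (1 - 16 / 3 * κ) → Law κ a) ∧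
    -- comparison
    (∀ ε : ℝ, 0 < ε → ∃ B T₀ : ℝ, ∀ T : ℝ, T₀ ≤ T → ∃ t : ℝ, |t - T| ≤ B ∧ -ε * log T ≤ J t) ∧
    (∀ κ : ℝ, 0 ≤ κ → Exponent κ → ∀ ε : ℝ, 0 < ε → ∃ T₀ : ℝ, ∀ t : ℝ, T₀ ≤ t →
      J t ≤ (κ / 4 + ε) * log t) ∧
    -- one-sided criteria
    (∀ κ a : ℝ, 0 ≤ κ → Law κ a → (∃ T₀ : ℝ, ∀ t : ℝ, T₀ ≤ t → J t ≤ a * log t) → Exponent κ) ∧
    (Exponent 0 ↔ ∀ ε : ℝ, 0 < ε → ∃ T₀ : ℝ, ∀ t : ℝ, T₀ ≤ t → J t ≤ ε * log t) :=
  ⟨Y757.LS.law_unif, fun _ _ h => Y757.LS.law_pow h, fun _ _ h1 h2 h3 => Y757.LS.law_sq h1 h2 h3,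
    fun _ _ h1 h2 h3 => Y757.LS.law_cube h1 h2 h3, fun _ h => Y757.LS.lower h,
    fun _ h0 h _ hε => Y757.LS.J_upper h0 h hε, fun _ _ h0 h ⟨_, hT⟩ => Y757.LS.crit h0 h hT,
    Y757.LS.lindelof_iff⟩

end Pool.Agent.Results.MP_4e5e8a_nt.LargeValuesForceS1
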