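import Pool.Agent.Y757.LL.Zeta

/-!
# A local form of the theorems of Backlund and Littlewood

For `1/2 ≤ a ≤ 1` let `Z(a,t)` be the sum of `Re ρ - a` over the zeros `ρ` of the zeta function
(with multiplicity) with `Re ρ > a` and `|Im ρ - t| ≤ 1`, and
`M(a,t) = log (e + log t / (1 + Z(a,t)))`. Then, uniformly in `a` and `t ≥ t₀`,

* `log |ζ(a + x + it)| ≤ C (log t / M) exp (- c x M)` for `0 ≤ x ≤ 3/4`;
* there are at most `C log t / M` zeros with `|ρ - (a + it)| ≤ c / M`.

No zeros to the right of the line (so `Z = 0`, `M` of size `log log t`): Littlewood's bounds under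
the Riemann hypothesis, but only the zeros within distance one in height matter.
`a = 1/2`: if `|ζ(1/2+it)| ≥ t ^ κ` then `1 + Z(1/2,t) ≥ exp (- C / κ) log t`, a quantitative form of
Backlund's criterion for the Lindelöf hypothesis.
-/

set_option autoImplicit false

namespace Pool.Agent.Results.MP_4e5e8a_nt.LocalZerosBound

open Complex

/-- The sum of `Re ρ - a` over the zeros `ρ` of `ζ` (with multiplicity) with `Re ρ > a` and
`|Im ρ - t| ≤ 1`. -/
noncomputable def excess (a t : ℝ) : ℝ :=
  ∑ᶠ ρ ∈ {ρ : ℂ | riemannZeta ρ = 0 ∧ a < ρ.re ∧ |ρ.im - t| ≤ 1},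
    (analyticOrderNatAt riemannZeta ρ : ℝ) * (ρ.re - a)

/-- `M(a,t) = log (e + log t / (1 + Z(a,t)))`. -/
noncomputable def M (a t : ℝ) : ℝ := Real.log (Real.exp 1 + Real.log t / (1 + excess a t))

/-- The number of zeros of `ζ` (with multiplicity) in the disc with centre `a + it` and
radius `r`. -/
noncomputable def count (a t r : ℝ) : ℝ :=
  ∑ᶠ ρ ∈ {ρ : ℂ | riemannZeta ρ = 0 ∧ ‖ρ - (a + t * I)‖ ≤ r},
    (analyticOrderNatAt riemannZeta ρ : ℝ)

open Pool.Agent.Y757.LL in
theorem result : ∃ C c t₀ : ℝ, 0 < C ∧ 0 < c ∧ ∀ a t : ℝ, 1 / 2 ≤ a → a ≤ 1 → t₀ ≤ t →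
    (∀ x : ℝ, 0 ≤ x → x ≤ 3 / 4 →
      Real.log ‖riemannZeta (a + x + t * I)‖ ≤
        C * (Real.log t / M a t) * Real.exp (-(c * x * M a t))) ∧
    count a t (c / M a t) ≤ C * (Real.log t / M a t) := by
  obtain ⟨C1, A, t₀, hC1, hA, ht₀, hdata⟩ := zeta_data
  set κ : ℝ := 1 / C1 with hκ
  have hC10 : 0 < C1 := by linarith
  have hκ0 : 0 < κ := by positivity
  have hκ1 : κ ≤ 1 := by rw [hκ, div_le_one hC10]; exact hC1
  set c : ℝ := κ / 24 with hc
  have hc0 : 0 < c := by positivity
  have hc24 : c ≤ 1 / 24 := by rw [hc]; linarith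
  refine ⟨25000000 / κ + 2 * Real.log (2 * A) + 1, c, max t₀ (Real.exp 3), ?_, hc0, ?_⟩
  · have := Real.log_nonneg (show (1:ℝ) ≤ 2 * A by linarith)
    positivity
  intro a t ha1 ha2 ht
  have ht1 : t₀ ≤ t := (le_max_left _ _).trans ht
  have ht3 : Real.exp 3 ≤ t := (le_max_right _ _).trans ht
  have ht10 : 10 ≤ t := ht₀.trans ht1
  have hy3 : 3 ≤ Real.log t := by
    rw [Real.le_log_iff_exp_le (by linarith)]; exact ht3
  obtain ⟨hFc, hM, hld, hFc2⟩ := hdata a t ha1 ha2 ht1
  have hz : ∀ ρ, riemannZeta₁ ρ = 0 → ρ.re ≤ a + 1 / 2 := by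
    intro ρ hρ
    have hρ1 : ρ ≠ 1 := by
      rintro rfl
      rw [riemannZeta₁_one] at hρ
      exact one_ne_zero hρ
    have h1 := (zero_iff hρ1).1 hρ
    by_contra h
    push Not at h
    exact riemannZeta_ne_zero_of_one_le_re (by linarith) h1
  obtain ⟨h1, h2⟩ := general riemannZeta₁ differentiable_riemannZeta₁ (a := a) (t := t)
    (B := 5 * Real.log t) (C1 := C1) (by linarith) hC1 hFc hM hz hld
  rw [Zs_zeta ht10] at h1 h2
  have hexc : excess a t = Zs riemannZeta a t := rfl
  set Z : ℝ := Zs riemannZeta a t with hZ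
  have hZ0 : 0 ≤ Z := Zs_nonneg _ _ _
  set y : ℝ := Real.log t with hy
  have hMdef : M a t = Real.log (Real.exp 1 + y / (1 + Z)) := rfl
  set m : ℝ := M a t with hm
  set Q : ℝ := y / (1 + Z) with hQ
  have hQ0 : 0 < Q := by positivity
  have he1 := Real.exp_one_gt_d9
  have he2 := Real.exp_one_lt_d9
  have hm1 : 1 ≤ m := by
    rw [hMdef, Real.le_log_iff_exp_le (by positivity)]
    linarith
  set m' : ℝ := Mx (5 * y) C1 Z with hm'
  have hm'def : m' = Real.log (Real.exp 1 + 5 * y / (C1 + Z)) := rfl
  -- `κ m ≤ m' ≤ 3 m`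
  have hlow : κ * m ≤ m' := by
    have h3 : κ * Q ≤ 5 * y / (C1 + Z) := by
      rw [hκ, hQ, le_div_iff₀ (by positivity)]
      have e : 1 / C1 * (y / (1 + Z)) * (C1 + Z) = y * ((C1 + Z) / (C1 * (1 + Z))) := by
        field_simp
      rw [e]
      have h4 : (C1 + Z) / (C1 * (1 + Z)) ≤ 1 := by
        rw [div_le_one (by positivity)]
        nlinarith
      nlinarith
    have h4 : κ * m ≤ Real.log (Real.exp 1 + κ * Q) := by
      have hconc := strictConcaveOn_log_Ioi.concaveOn
      have h5 := hconc.2 (show Real.exp 1 + Q ∈ Set.Ioi (0:ℝ) by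
          simp only [Set.mem_Ioi]; positivity)
        (show Real.exp 1 ∈ Set.Ioi (0:ℝ) from Real.exp_pos 1) hκ0.le
        (show 0 ≤ 1 - κ by linarith) (by ring)
      simp only [smul_eq_mul, Real.log_exp, mul_one] at h5
      have e : κ * (Real.exp 1 + Q) + (1 - κ) * Real.exp 1 = Real.exp 1 + κ * Q := by ring
      rw [e, ← hMdef] at h5
      linarith
    refine h4.trans ?_
    rw [hm'def]
    apply Real.log_le_log (by positivity)
    linarith
  have hup : m' ≤ 3 * m := by
    have h3 : Real.exp 1 + 5 * y / (C1 + Z) ≤ 5 * (Real.exp 1 + Q) := by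
      have h4 : 5 * y / (C1 + Z) ≤ 5 * Q := by
        rw [hQ]
        have : 5 * (y / (1 + Z)) = 5 * y / (1 + Z) := by ring
        rw [this]
        apply div_le_div_of_nonneg_left (by positivity) (by positivity)
        linarith
      linarith
    have h5 : m' ≤ Real.log 5 + m := by
      rw [hm'def, hMdef, ← Real.log_mul (by norm_num) (by positivity)]
      exact Real.log_le_log (by positivity) h3
    have h6 : Real.log 5 ≤ 2 := by
      rw [Real.log_le_iff_le_exp (by norm_num)]
      have h3 : Real.exp 2 = Real.exp 1 ^ 2 := by rw [← Real.exp_nat_mul]; norm_num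
      rw [h3]; nlinarith
    linarith
  have hm0 : 0 < m := by linarith
  have hm'1 : κ ≤ m' := by nlinarith
  have hm'0 : 0 < m' := by linarith
  have hBm : 5 * y / m' ≤ 5 / κ * (y / m) := by
    rw [div_le_iff₀ hm'0]
    have e : 5 / κ * (y / m) * m' = 5 * y * (m' / (κ * m)) := by field_simp
    rw [e]
    have h4 : 1 ≤ m' / (κ * m) := by
      rw [one_le_div (by positivity)]; exact hlow
    have h5 : 0 ≤ 5 * y := by linarith
    nlinarith
  have hlogA : 0 ≤ Real.log (2 * A) := Real.log_nonneg (by linarith)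
  constructor
  · intro x hx0 hx
    have h3 := h1 x hx0 hx
    set p : ℂ := (a : ℂ) + x + t * I with hp
    have hpim : p.im = t := by simp [hp]
    have hp1 : p ≠ 1 := by
      intro h
      have := congrArg Complex.im h
      rw [hpim, one_im] at this
      linarith
    have hpn : t ≤ ‖p - 1‖ := by
      have := Complex.abs_im_le_norm (p - 1)
      rw [sub_im, hpim, one_im, sub_zero, abs_of_nonneg (by linarith)] at this
      exact this
    rw [z1_eq_mul hp1, norm_mul] at h3
    set E : ℝ := 5000000 * (5 * y / m') * Real.exp (-(x * m' / 15)) with hE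
    -- the lower bound for the right side
    have hrhs : 1 / 2 ≤ y / m * Real.exp (-(c * x * m)) := by
      have h4 : c * x * m ≤ 1 / 2 * m := by
        have : c * x ≤ 1 / 2 := by nlinarith
        gcongr
      have hQy : Real.exp 1 + Q ≤ 2 * y := by
        have : Q ≤ y := by
          rw [hQ, div_le_iff₀ (by positivity)]
          nlinarith
        linarith
      have h5 : m ≤ Real.log (2 * y) := by
        rw [hMdef]
        exact Real.log_le_log (by positivity) hQy
      have h6 : Real.exp (-(1 / 2 * Real.log (2 * y))) ≤ Real.exp (-(c * x * m)) := by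
        apply Real.exp_le_exp.2
        linarith
      have h2y : 0 < 2 * y := by linarith
      have h7 : Real.exp (-(1 / 2 * Real.log (2 * y))) = (Real.sqrt (2 * y))⁻¹ := by
        rw [Real.exp_neg, Real.sqrt_eq_rpow, Real.rpow_def_of_pos h2y]
        congr 2
        ring
      have h8 : Real.log (2 * y) ≤ Real.sqrt (2 * y) := by
        have hs : 0 < Real.sqrt (2 * y) := Real.sqrt_pos.2 h2y
        have h9 : Real.log (2 * y) = 2 * Real.log (Real.sqrt (2 * y)) := by
          rw [Real.log_sqrt h2y.le]; ring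
        have h10 := Real.log_le_sub_one_of_pos (show 0 < Real.sqrt (2 * y) / Real.exp 1 by positivity)
        rw [Real.log_div hs.ne' (Real.exp_pos 1).ne', Real.log_exp] at h10
        have h11 : Real.sqrt (2 * y) / Real.exp 1 ≤ Real.sqrt (2 * y) / 2 := by
          apply div_le_div_of_nonneg_left hs.le (by norm_num)
          linarith
        rw [h9]
        linarith
      have hs : 0 < Real.sqrt (2 * y) := Real.sqrt_pos.2 h2y
      calc (1:ℝ) / 2 = y / Real.sqrt (2 * y) * (Real.sqrt (2 * y))⁻¹ := by
            rw [← div_eq_mul_inv, div_div, Real.mul_self_sqrt h2y.le]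
            field_simp
        _ ≤ y / m * Real.exp (-(c * x * m)) := by
          rw [← h7]
          gcongr
          exact h5.trans h8
    have hEb : E ≤ 25000000 / κ * (y / m * Real.exp (-(c * x * m))) := by
      have h4 : Real.exp (-(x * m' / 15)) ≤ Real.exp (-(c * x * m)) := by
        apply Real.exp_le_exp.2
        have h5 : c * x * m ≤ x * m' / 15 := by
          have h6 : x * (κ * m) ≤ x * m' := by gcongr
          have h7 : 0 ≤ x * (κ * m) := by positivity
          have e : c * x * m = x * (κ * m) / 24 := by rw [hc]; ring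
          rw [e]; linarith
        linarith
      calc E ≤ 5000000 * (5 / κ * (y / m)) * Real.exp (-(c * x * m)) := by
            rw [hE]; gcongr
        _ = 25000000 / κ * (y / m * Real.exp (-(c * x * m))) := by ring
    have hmain : Real.log ‖riemannZeta p‖ ≤ Real.log (2 * A) + E := by
      rcases eq_or_lt_of_le (norm_nonneg (riemannZeta p)) with h0 | h0
      · rw [← h0, Real.log_zero]
        have : 0 ≤ E := by rw [hE]; positivity
        linarith
      · have h4 : t * ‖riemannZeta p‖ ≤ 2 * A * t * Real.exp E := by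
          calc t * ‖riemannZeta p‖ ≤ ‖p - 1‖ * ‖riemannZeta p‖ := by gcongr
            _ ≤ ‖riemannZeta₁ (a + (3 / 4 : ℝ) + t * I)‖ * Real.exp E := h3
            _ ≤ 2 * A * t * Real.exp E := by gcongr
        have h5 : ‖riemannZeta p‖ ≤ 2 * A * Real.exp E := by
          have h6 : 0 < t := by linarith
          have e : 2 * A * t * Real.exp E = t * (2 * A * Real.exp E) := by ring
          rw [e] at h4
          exact le_of_mul_le_mul_left h4 h6
        have h6 := Real.log_le_log h0 h5
        rwa [Real.log_mul (by positivity) (Real.exp_pos E).ne', Real.log_exp] at h6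
    set R : ℝ := y / m * Real.exp (-(c * x * m)) with hR
    have hR0 : 0 ≤ R := by linarith
    have hAR : Real.log (2 * A) ≤ 2 * Real.log (2 * A) * R := by
      have h4 : 2 * Real.log (2 * A) * (1 / 2) ≤ 2 * Real.log (2 * A) * R :=
        mul_le_mul_of_nonneg_left hrhs (by linarith)
      linarith
    calc Real.log ‖riemannZeta p‖ ≤ Real.log (2 * A) + E := hmain
      _ ≤ 2 * Real.log (2 * A) * R + 25000000 / κ * R := add_le_add hAR hEb
      _ ≤ 2 * Real.log (2 * A) * R + 25000000 / κ * R + R := by linarith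
      _ = (25000000 / κ + 2 * Real.log (2 * A) + 1) * R := by ring
      _ = (25000000 / κ + 2 * Real.log (2 * A) + 1) * (y / m) * Real.exp (-(c * x * m)) := by
        rw [hR]; ring
  · have hm'ge : 1 ≤ m' := by
      rw [hm'def, Real.le_log_iff_exp_le (by positivity)]
      have : 0 ≤ 5 * y / (C1 + Z) := by positivity
      linarith
    have hr : 1 / (8 * m') ≤ 1 / 8 := by
      apply div_le_div_of_nonneg_left (by norm_num) (by norm_num)
      linarith
    rw [Ns_zeta ht10 hr] at h2
    have hcr : c / m ≤ 1 / (8 * m') := by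
      rw [div_le_div_iff₀ hm0 (by positivity)]
      have : c * (8 * m') ≤ 1 / 24 * (8 * (3 * m)) := by gcongr
      linarith
    have hfin : (nset riemannZeta a t (1 / (8 * m'))).Finite := by
      have h3 : nset riemannZeta a t (1 / (8 * m')) = nset riemannZeta₁ a t (1 / (8 * m')) := by
        ext ρ
        constructor
        · intro h
          exact ⟨(zero_iff (nset_ne_one ht10 hr h)).2 h.1, h.2⟩
        · intro h
          exact ⟨(zero_iff (nset_ne_one ht10 hr h)).1 h.1, h.2⟩
      rw [h3]
      refine (Pool.Agent.H437R2.zeros_finite riemannZeta₁ differentiable_riemannZeta₁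
        ⟨1, by rw [riemannZeta₁_one]; exact one_ne_zero⟩
        (Metric.closedBall (a + t * I) (1 / (8 * m'))) (isCompact_closedBall _ _)).subset ?_
      rintro ρ ⟨h4, h5⟩
      exact ⟨h4, by rw [Metric.mem_closedBall, dist_eq_norm]; exact h5⟩
    have hsub : {ρ : ℂ | riemannZeta ρ = 0 ∧ ‖ρ - (a + t * I)‖ ≤ c / m} ⊆
        nset riemannZeta a t (1 / (8 * m')) := fun ρ hρ => ⟨hρ.1, hρ.2.trans hcr⟩
    have hcount : count a t (c / m) ≤ Ns riemannZeta a t (1 / (8 * m')) := by
      unfold count Ns
      rw [finsum_mem_eq_finite_toFinset_sum _ hfin,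
        finsum_mem_eq_finite_toFinset_sum _ (hfin.subset hsub)]
      refine Finset.sum_le_sum_of_subset_of_nonneg ?_ fun _ _ _ => by positivity
      exact Set.Finite.toFinset_mono hsub
    calc count a t (c / m) ≤ 5000000 * (5 * y / m') := hcount.trans h2
      _ ≤ 5000000 * (5 / κ * (y / m)) := by gcongr
      _ = 25000000 / κ * (y / m) := by ring
      _ ≤ (25000000 / κ + 2 * Real.log (2 * A) + 1) * (y / m) := by
        have : 0 ≤ y / m := by positivity
        gcongr
        linarith

end Pool.Agent.Results.MP_4e5e8a_nt.LocalZerosBound
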