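import Pool.Agent.Y746.OJ.A8

set_option autoImplicit false

/-!
# The Lindelöf quantity `S₁` takes large values of both signs

Let `J(t) = ∫_{1/2}^∞ log |ζ(σ + it)| dσ`; by a classical formula of Littlewood (not used or proved here)
`J = π S₁ + const`, `S₁(t) = ∫_0^t S(u) du`, and the Lindelöf hypothesis is equivalent to `J(t) = o(log t)`.
Unconditionally, for every `ε > 0` there are `c, C > 0` such that for all large `T` each of the two sets of
`t ∈ [T, 2T]` with `J(t) ≥ c (log t)^(1/2) (log log t)^(-3/2)`, or `J(t) ≤ -c (log t)^(1/2) (log log t)^(-3/2)`,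
in which moreover all zeros `ρ` of zeta with `|Im ρ - t| ≤ log t` lie within `C (log t log log t)^(-1/2)` of
the critical line, has measure at least `T^(1 - ε)`.

The proof is a resonator method: the average of `J` against a Gaussian times a Fejér kernel and the
square of a short Dirichlet polynomial is computed by shifting the line of integration; the zeros off the line
which are met are controlled by a zero-density estimate which is tilted by the same Dirichlet polynomial.
Parts of the proof were written by helpers 141, 153, 180, 220, 258, 340, 356, 363, 365, 412, 445, 474, 495,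
555, 576, 813, 872, 884, 900, 923, 929, 949, 954.
-/

open MeasureTheory

namespace Pool.Agent.Results.MP_4e5e8a_nt.OmegaS1

/-- `J t = ∫_{1/2}^∞ log |ζ(σ + it)| dσ` -/
noncomputable def J (t : ℝ) : ℝ := ∫ σ in Set.Ioi (1/2 : ℝ), Real.log ‖riemannZeta (σ + t * Complex.I)‖

/-- there is no zero of zeta at height `t` on or to the right of the critical line -/
def NoZero (t : ℝ) : Prop := ∀ σ : ℝ, 1/2 ≤ σ → riemannZeta (σ + t * Complex.I) ≠ 0

/-- every zero of zeta in the critical strip at height within `log t` of `t` has distance at most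
`C (log t log log t) ^ (-1/2)` from the critical line -/
def NearLine (C t : ℝ) : Prop :=
  ∀ ρ : ℂ, 0 < ρ.re → ρ.re < 1 → riemannZeta ρ = 0 → |ρ.im - t| ≤ Real.log t →
    |ρ.re - 1 / 2| ≤ C / Real.sqrt (Real.log t * Real.log (Real.log t))

/-- the points of `[T, 2T]` at no zero, with all nearby zeros near the critical line -/
def Good (C T : ℝ) : Set ℝ := {t : ℝ | T ≤ t ∧ t ≤ 2 * T ∧ NoZero t ∧ NearLine C t}

lemma good_of {C T t : ℝ} (h1 : T ≤ t) (h2 : t ≤ 2 * T) (h3 : Pool.Agent.Y746.OM.NearL C t)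
    (h4 : Pool.Agent.Y746.OJ.NZ t) : t ∈ Good C T := by
  refine ⟨h1, h2, fun σ hσ => ?_, h3⟩
  by_cases h : σ ≤ 3 / 2
  · exact h4 σ hσ h
  · push Not at h
    refine riemannZeta_ne_zero_of_one_le_re ?_
    have : ((σ : ℂ) + t * Complex.I).re = σ := by simp
    rw [this]; linarith

theorem result : ∀ ε : ℝ, 0 < ε → ∃ c C T₀ : ℝ, 0 < c ∧ 0 < C ∧ ∀ T : ℝ, T₀ ≤ T →
    ENNReal.ofReal (T ^ (1 - ε)) ≤ volume {t ∈ Good C T |
      c * (Real.sqrt (Real.log t) / Real.log (Real.log t) ^ (3 / 2 : ℝ)) ≤ J t} ∧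
    ENNReal.ofReal (T ^ (1 - ε)) ≤ volume {t ∈ Good C T |
      J t ≤ -(c * (Real.sqrt (Real.log t) / Real.log (Real.log t) ^ (3 / 2 : ℝ)))} := by
  intro ε hε
  obtain ⟨c, C, T0, hc, hC, H⟩ := Pool.Agent.Y746.OJ.g_FIN ε hε
  refine ⟨c, C, T0, hc, hC, fun T hT => ?_⟩
  obtain ⟨-, a2⟩ := H T hT 1 (Or.inl rfl)
  obtain ⟨-, b2⟩ := H T hT (-1) (Or.inr rfl)
  refine ⟨a2.trans (measure_mono ?_), b2.trans (measure_mono ?_)⟩
  · rintro t ⟨q1, q2, q3, q4, q5⟩
    rw [one_mul] at q3
    exact ⟨good_of q1 q2 q4 q5, q3⟩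
  · rintro t ⟨q1, q2, q3, q4, q5⟩
    rw [neg_one_mul] at q3
    refine ⟨good_of q1 q2 q4 q5, ?_⟩
    have q6 : c * (Real.sqrt (Real.log t) / Real.log (Real.log t) ^ (3 / 2 : ℝ)) ≤ -J t := q3
    linarith

end Pool.Agent.Results.MP_4e5e8a_nt.OmegaS1
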